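import Mathlib

open Set TopologicalSpace

namespace Pool.Agent.Results.MP_43be50_gt.ZVersions

section Defs

variable (Y Z : Type) [TopologicalSpace Y] [TopologicalSpace Z]

/-- The family of all preimages of open sets of `Z` under continuous maps `Y → Z`. -/
def OZ : Set (Opens Y) :=
  {W | ∃ (f : C(Y, Z)) (U : Opens Z), W = Opens.comap f U}

/-- The topology on `Y` with subbasis `OZ Y Z`. -/
@[reducible]
def tauYZ : TopologicalSpace Y :=
  generateFrom {W : Set Y | ∃ V ∈ OZ Y Z, (V : Set Y) = W}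

/-- The compact-open topology. -/
@[reducible]
def tco : TopologicalSpace C(Y, Z) :=
  generateFrom {A | ∃ (K : Set Y) (U : Opens Z),
    IsCompact K ∧ A = {f : C(Y, Z) | f '' K ⊆ (U : Set Z)}}

/-- The `Z`-version of the compact-open topology: `K` ranges over the `Z`-compact sets. -/
@[reducible]
def tcoZ : TopologicalSpace C(Y, Z) :=
  generateFrom {A | ∃ (K : Set Y) (U : Opens Z),
    @IsCompact Y (tauYZ Y Z) K ∧ A = {f : C(Y, Z) | f '' K ⊆ (U : Set Z)}}

/-- `H` is open in the Scott topology on the open sets of `Y`. -/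
def ScottOpen (H : Set (Opens Y)) : Prop :=
  (∀ W ∈ H, ∀ V : Opens Y, W ≤ V → V ∈ H) ∧
  (∀ F : Set (Opens Y), sSup F ∈ H → ∃ G ⊆ F, G.Finite ∧ sSup G ∈ H)

/-- `H` is open in the strong Scott topology. -/
def StrongScottOpen (H : Set (Opens Y)) : Prop :=
  (∀ W ∈ H, ∀ V : Opens Y, W ≤ V → V ∈ H) ∧
  (∀ F : Set (Opens Y), sSup F = ⊤ → ∃ G ⊆ F, G.Finite ∧ sSup G ∈ H)

/-- `H` is open in `tau_1^Z`. -/
def ScottOpenZ (H : Set (Opens Y)) : Prop :=
  (∀ W ∈ H, W ∈ OZ Y Z → ∀ V : Opens Y, W ≤ V → V ∈ H) ∧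
  (∀ F : Set (Opens Y), F ⊆ OZ Y Z → sSup F ∈ H → ∃ G ⊆ F, G.Finite ∧ sSup G ∈ H)

/-- `H` is open in `tau_{1,s}^Z`. -/
def StrongScottOpenZ (H : Set (Opens Y)) : Prop :=
  (∀ W ∈ H, W ∈ OZ Y Z → ∀ V : Opens Y, W ≤ V → V ∈ H) ∧
  (∀ F : Set (Opens Y), F ⊆ OZ Y Z → sSup F = ⊤ → ∃ G ⊆ F, G.Finite ∧ sSup G ∈ H)

/-- The topology on `C(Y, Z)` with subbasis all `(H, U) = {f | f ⁻¹ U ∈ H}`,
`U` open in `Z`, `H` a set of open sets of `Y` satisfying `P`. -/
@[reducible]
def tGen (P : Set (Opens Y) → Prop) : TopologicalSpace C(Y, Z) :=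
  generateFrom {A | ∃ (H : Set (Opens Y)) (U : Opens Z),
    P H ∧ A = {f : C(Y, Z) | Opens.comap f U ∈ H}}

/-- The Isbell topology. -/
@[reducible]
def tIs : TopologicalSpace C(Y, Z) := tGen Y Z (ScottOpen Y)

/-- The strong Isbell topology. -/
@[reducible]
def tsIs : TopologicalSpace C(Y, Z) := tGen Y Z (StrongScottOpen Y)

/-- The topology `t_1^Z`. -/
@[reducible]
def t1Z : TopologicalSpace C(Y, Z) := tGen Y Z (ScottOpenZ Y Z)

/-- The topology `t_{1,s}^Z`. -/
@[reducible]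
def t1sZ : TopologicalSpace C(Y, Z) := tGen Y Z (StrongScottOpenZ Y Z)

end Defs

/-- Index set: infinite sets of naturals that are small for a fixed nonprincipal ultrafilter. -/
abbrev Small : Type := {A : Set ℕ // A.Infinite ∧ Aᶜ ∈ (Filter.hyperfilter ℕ : Filter ℕ)}

/-- Every infinite set of naturals contains a small infinite set. -/
theorem exists_small (B : Set ℕ) (hB : B.Infinite) : ∃ A : Small, A.1 ⊆ B := by
  obtain ⟨C, D, hCB, hDB, hC, hD, hCD⟩ : ∃ C D : Set ℕ, C ⊆ B ∧ D ⊆ B ∧ C.Infinite ∧ D.Infinite ∧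
      Disjoint C D := by
    let e := hB.natEmbedding
    refine ⟨range fun n => (e (2 * n) : ℕ), range fun n => (e (2 * n + 1) : ℕ), ?_, ?_, ?_, ?_, ?_⟩
    · rintro _ ⟨n, rfl⟩
      exact (e (2 * n)).2
    · rintro _ ⟨n, rfl⟩
      exact (e (2 * n + 1)).2
    · apply infinite_range_of_injective
      intro a b hab
      have := e.injective (Subtype.ext hab)
      omega
    · apply infinite_range_of_injective
      intro a b hab
      have := e.injective (Subtype.ext hab)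
      omega
    · rw [Set.disjoint_left]
      rintro _ ⟨n, rfl⟩ ⟨m, hm⟩
      have := e.injective (Subtype.ext hm)
      omega
  by_cases h : Cᶜ ∈ (Filter.hyperfilter ℕ : Filter ℕ)
  · exact ⟨⟨C, hC, h⟩, hCB⟩
  · have h1 : C ∈ (Filter.hyperfilter ℕ : Filter ℕ) := by
      have := (Ultrafilter.mem_or_compl_mem (Filter.hyperfilter ℕ) C)
      rcases this with h2 | h2
      · exact h2
      · exact absurd h2 h
    refine ⟨⟨D, hD, ?_⟩, hDB⟩
    exact Filter.mem_of_superset h1 (fun x hx hx' => (Set.disjoint_left.1 hCD) hx hx')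

/-- The Banach space of bounded real families indexed by the small sets. -/
abbrev E : Type := lp (fun _ : Small => ℝ) ⊤

/-- The unit vector at `A`. -/
noncomputable def e (A : Small) : E := lp.single ⊤ A (1 : ℝ)

/-- The example space, as a subset of the Banach space `ℝ × E`: the points `(0, e A)`, and, for
each natural `n`, the star with centre `(1 / (n + 1), 0)` and with one spine
`{(1 / (n + 1), t • e A) | 0 ≤ t ≤ 1}` for every small set `A` containing `n`. -/
def carrier : Set (ℝ × E) :=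
  {p | (∃ A : Small, p = (0, e A)) ∨
    ∃ (n : ℕ) (A : Small) (t : ℝ), 0 ≤ t ∧ t ≤ 1 ∧ (n ∈ A.1 ∨ t = 0) ∧
      p = (1 / ((n : ℝ) + 1), t • e A)}

abbrev YY : Type := carrier

theorem e_self (A : Small) : (e A : Small → ℝ) A = 1 := by
  simp [e]

theorem e_ne {A B : Small} (h : B ≠ A) : (e A : Small → ℝ) B = 0 := by
  simp [e, h]


theorem level_inj {n m : ℕ} (h : (1 : ℝ) / ((n : ℝ) + 1) = 1 / ((m : ℝ) + 1)) : n = m := by
  have hn : ((n : ℝ) + 1) ≠ 0 := by positivity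
  have hm : ((m : ℝ) + 1) ≠ 0 := by positivity
  rw [div_eq_div_iff hn hm] at h
  have : (n : ℝ) = m := by linarith
  exact_mod_cast this

theorem level_ne_zero (n : ℕ) : (0 : ℝ) ≠ 1 / ((n : ℝ) + 1) := by
  have : (0 : ℝ) < 1 / ((n : ℝ) + 1) := by positivity
  exact this.ne

/-- The point at infinity with index `A`. -/
noncomputable def lim (A : Small) : YY := ⟨(0, e A), Or.inl ⟨A, rfl⟩⟩

/-- The `n`-th star. -/
def Q (n : ℕ) : Set YY := {y | y.1.1 = 1 / ((n : ℝ) + 1)}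

theorem cases_pt (y : YY) : (∃ A, y = lim A) ∨ ∃ n, y ∈ Q n := by
  obtain ⟨y, ⟨A, rfl⟩ | ⟨n, A, t, h0, h1, h, rfl⟩⟩ := y
  · exact Or.inl ⟨A, rfl⟩
  · exact Or.inr ⟨n, rfl⟩

theorem lim_not_mem_Q (A : Small) (n : ℕ) : lim A ∉ Q n := fun h => level_ne_zero n h

theorem continuous_level : Continuous (fun y : YY => y.1.1) :=
  continuous_fst.comp continuous_subtype_val

theorem isClopen_Q (n : ℕ) : IsClopen (Q n) := by
  constructor
  · exact isClosed_eq continuous_level continuous_const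
  · have h1 : Q n = {y : YY | |y.1.1 - 1 / ((n : ℝ) + 1)| < 1 / (((n : ℝ) + 1) * (n + 2))} := by
      have hpos : (0 : ℝ) < 1 / (((n : ℝ) + 1) * (n + 2)) := by positivity
      ext y
      constructor
      · intro hy
        have hy' : y.1.1 = 1 / ((n : ℝ) + 1) := hy
        show |y.1.1 - 1 / ((n : ℝ) + 1)| < _
        rw [hy', sub_self, abs_zero]
        exact hpos
      · intro hy
        have hy' : |y.1.1 - 1 / ((n : ℝ) + 1)| < 1 / (((n : ℝ) + 1) * (n + 2)) := hy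
        have hid : (1 : ℝ) / ((n : ℝ) + 1) - 1 / ((n : ℝ) + 2) =
            1 / (((n : ℝ) + 1) * (n + 2)) := by
          field_simp
          ring
        rcases cases_pt y with ⟨A, rfl⟩ | ⟨m, hm⟩
        · exfalso
          have : (lim A).1.1 = 0 := rfl
          rw [this, zero_sub, abs_neg, abs_of_pos (by positivity)] at hy'
          have h2 : (0 : ℝ) < 1 / ((n : ℝ) + 2) := by positivity
          linarith
        · have hm' : y.1.1 = 1 / ((m : ℝ) + 1) := hm
          rw [hm'] at hy'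
          rcases lt_trichotomy m n with hlt | heq | hgt
          · exfalso
            have hle : ((m : ℝ) + 1) ≤ n := by exact_mod_cast hlt
            have hn0 : (0 : ℝ) < n := by
              have : (0 : ℝ) < (m : ℝ) + 1 := by positivity
              linarith
            have h3 : (1 : ℝ) / n ≤ 1 / ((m : ℝ) + 1) :=
              one_div_le_one_div_of_le (by positivity) hle
            have h4 := (abs_lt.1 hy').2
            have h5 : (1 : ℝ) / n - 1 / ((n : ℝ) + 1) = 1 / ((n : ℝ) * (n + 1)) := by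
              field_simp
              ring
            have h6 : (1 : ℝ) / (((n : ℝ) + 1) * (n + 2)) ≤ 1 / ((n : ℝ) * (n + 1)) := by
              apply one_div_le_one_div_of_le (by positivity)
              nlinarith
            linarith
          · subst heq
            exact hm
          · exfalso
            have hle : ((n : ℝ) + 2) ≤ (m : ℝ) + 1 := by
              have : ((n : ℝ) + 1) ≤ m := by exact_mod_cast hgt
              linarith
            have h3 : (1 : ℝ) / ((m : ℝ) + 1) ≤ 1 / ((n : ℝ) + 2) :=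
              one_div_le_one_div_of_le (by positivity) hle
            have h4 := (abs_lt.1 hy').1
            linarith
    rw [h1]
    exact isOpen_lt ((continuous_level.sub continuous_const).abs) continuous_const

/-- The point at parameter `t` on the spine `A` of the `n`-th star. -/
noncomputable def sp (n : ℕ) (A : Small) (t : ℝ) (h0 : 0 ≤ t) (h1 : t ≤ 1) (h : n ∈ A.1 ∨ t = 0) :
    YY := ⟨(1 / ((n : ℝ) + 1), t • e A), Or.inr ⟨n, A, t, h0, h1, h, rfl⟩⟩

theorem exists_eq_sp {n : ℕ} {y : YY} (hy : y ∈ Q n) :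
    ∃ (A : Small) (t : ℝ) (h0 : 0 ≤ t) (h1 : t ≤ 1) (h : n ∈ A.1 ∨ t = 0),
      y = sp n A t h0 h1 h := by
  obtain ⟨y, ⟨A, rfl⟩ | ⟨m, A, t, h0, h1, h, rfl⟩⟩ := y
  · exact absurd hy (lim_not_mem_Q A n)
  · have hmn : m = n := level_inj hy
    subst hmn
    exact ⟨A, t, h0, h1, h, rfl⟩

/-- The centre of the `n`-th star. -/
theorem exists_ctr (n : ℕ) : ∃ c : YY, c.1 = (1 / ((n : ℝ) + 1), 0) := by
  obtain ⟨A₀, -⟩ := exists_small univ infinite_univ
  refine ⟨sp n A₀ 0 le_rfl zero_le_one (Or.inr rfl), ?_⟩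
  simp [sp]

theorem isPreconnected_Q (n : ℕ) : IsPreconnected (Q n) := by
  obtain ⟨c, hc⟩ := exists_ctr n
  apply isPreconnected_of_forall c
  intro y hy
  obtain ⟨A, t, h0, h1, h, rfl⟩ := exists_eq_sp hy
  have hmem : ∀ u : Icc (0 : ℝ) 1, 0 ≤ u.1 * t ∧ u.1 * t ≤ 1 ∧ (n ∈ A.1 ∨ u.1 * t = 0) := by
    intro u
    refine ⟨mul_nonneg u.2.1 h0, mul_le_one₀ u.2.2 h0 h1, ?_⟩
    rcases h with h | h
    · exact Or.inl h
    · right
      rw [h, mul_zero]
  let γ : Icc (0 : ℝ) 1 → YY := fun u =>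
    sp n A (u.1 * t) (hmem u).1 (hmem u).2.1 (hmem u).2.2
  have hγ : Continuous γ := by
    apply Continuous.subtype_mk
    fun_prop
  refine ⟨range γ, ?_, ⟨⟨0, by simp⟩, ?_⟩, ⟨⟨1, by simp⟩, ?_⟩, isPreconnected_range hγ⟩
  · rintro _ ⟨u, rfl⟩
    rfl
  · apply Subtype.ext
    rw [hc]
    simp [γ, sp]
  · apply Subtype.ext
    simp [γ, sp]

theorem nonempty_Q (n : ℕ) : (Q n).Nonempty := by
  obtain ⟨c, hc⟩ := exists_ctr n
  refine ⟨c, ?_⟩
  show c.1.1 = _
  rw [hc]

theorem Q_subset_of_isClopen {W : Set YY} (hW : IsClopen W) {n : ℕ}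
    (h : ∃ y ∈ Q n, y ∈ W) : Q n ⊆ W := by
  obtain ⟨y, hy, hyW⟩ := h
  exact (isPreconnected_Q n).subset_isClopen hW ⟨y, hy, hyW⟩

theorem finite_of_isOpen {W : Set YY} (hW : IsOpen W) {A : Small} (hA : lim A ∈ W) :
    {n | n ∈ A.1 ∧ ∀ y ∈ Q n, y ∉ W}.Finite := by
  obtain ⟨O, hO, rfl⟩ := isOpen_induced_iff.1 hW
  have ht : Filter.Tendsto (fun n : ℕ => ((1 / ((n : ℝ) + 1), e A) : ℝ × E)) Filter.atTop
      (nhds ((0 : ℝ), e A)) := by
    apply Filter.Tendsto.prodMk_nhds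
    · exact tendsto_one_div_add_atTop_nhds_zero_nat
    · exact tendsto_const_nhds
  have hev := ht (hO.mem_nhds hA)
  rw [Filter.mem_map, Filter.mem_atTop_sets] at hev
  obtain ⟨N, hN⟩ := hev
  refine (finite_lt_nat N).subset ?_
  rintro n ⟨hnA, hn⟩
  by_contra hcon
  have hle : N ≤ n := not_lt.1 hcon
  have h1 := hN n hle
  refine hn (sp n A 1 zero_le_one le_rfl (Or.inl hnA)) rfl ?_
  show (sp n A 1 zero_le_one le_rfl (Or.inl hnA)).1 ∈ O
  simpa [sp] using h1

/-- A basic neighbourhood of the point at infinity with index `A`. -/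
noncomputable def basicNhd (A : Small) : Opens YY :=
  ⟨{y : YY | (1 / 2 : ℝ) < (y.1.2 : Small → ℝ) A}, by
    have h1 : Continuous (fun v : E => (v : Small → ℝ) A) := by
      refine LipschitzWith.continuous (K := 1) ?_
      apply LipschitzWith.of_dist_le_mul
      intro v w
      rw [NNReal.coe_one, one_mul, dist_eq_norm, dist_eq_norm]
      exact lp.norm_apply_le_norm ENNReal.top_ne_zero (v - w) A
    have h2 : Continuous (fun y : YY => (y.1.2 : Small → ℝ) A) :=
      h1.comp (continuous_snd.comp continuous_subtype_val)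
    exact isOpen_lt continuous_const h2⟩

theorem lim_mem_basicNhd (A : Small) : lim A ∈ basicNhd A := by
  show (1 / 2 : ℝ) < (e A : Small → ℝ) A
  rw [e_self]
  norm_num

theorem mem_of_mem_basicNhd {A : Small} {n : ℕ} (h : ∃ y ∈ Q n, y ∈ basicNhd A) : n ∈ A.1 := by
  obtain ⟨y, hy, hyA⟩ := h
  obtain ⟨B, t, h0, h1, h, rfl⟩ := exists_eq_sp hy
  have h2 : (1 / 2 : ℝ) < (t • e B : E) A := hyA
  have h3 : (t • e B : E) A = t * (e B : Small → ℝ) A := rfl
  rw [h3] at h2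
  by_cases hAB : A = B
  · subst hAB
    rcases h with h | h
    · exact h
    · rw [h, zero_mul] at h2
      norm_num at h2
  · rw [e_ne hAB, mul_zero] at h2
    norm_num at h2

/-- The property satisfied by all sets open in `tauYZ YY Bool`. -/
def Dich (W : Set YY) : Prop :=
  (∀ n, (∃ y ∈ Q n, y ∈ W) → Q n ⊆ W) ∧
  ((∃ A : Small, lim A ∈ W) → (∀ A : Small, lim A ∈ W) ∧ {n | ¬ Q n ⊆ W}.Finite)

theorem dich_of_isClopen (W : Set YY) (hW : IsClopen W) : Dich W := by
  refine ⟨fun n hn => Q_subset_of_isClopen hW hn, ?_⟩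
  rintro ⟨A₀, hA₀⟩
  have ho : ∀ A : Small, lim A ∈ W → {n | n ∈ A.1 ∧ ¬ Q n ⊆ W}.Finite := by
    intro A hA
    refine (finite_of_isOpen hW.2 hA).subset ?_
    rintro n ⟨hn, hn'⟩
    exact ⟨hn, fun y hy hyW => hn' (Q_subset_of_isClopen hW ⟨y, hy, hyW⟩)⟩
  have hc : ∀ A : Small, lim A ∉ W → {n | n ∈ A.1 ∧ Q n ⊆ W}.Finite := by
    intro A hA
    refine (finite_of_isOpen (W := Wᶜ) hW.1.isOpen_compl hA).subset ?_
    rintro n ⟨hn, hn'⟩
    exact ⟨hn, fun y hy hyW => hyW (hn' hy)⟩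
  -- all points at infinity are in `W`
  have key : ∀ A : Small, lim A ∈ W := by
    intro A
    by_contra hA
    have hU : (A₀.1 ∪ A.1).Infinite := A₀.2.1.mono subset_union_left
    have hUc : (A₀.1 ∪ A.1)ᶜ ∈ (Filter.hyperfilter ℕ : Filter ℕ) := by
      rw [compl_union]
      exact Filter.inter_mem A₀.2.2 A.2.2
    let U : Small := ⟨A₀.1 ∪ A.1, hU, hUc⟩
    by_cases hUW : lim U ∈ W
    · apply A.2.1
      refine ((ho U hUW).union (hc A hA)).subset ?_
      intro n hn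
      by_cases h : Q n ⊆ W
      · right
        exact ⟨hn, h⟩
      · left
        exact ⟨Or.inr hn, h⟩
    · apply A₀.2.1
      refine ((hc U hUW).union (ho A₀ hA₀)).subset ?_
      intro n hn
      by_cases h : Q n ⊆ W
      · left
        exact ⟨Or.inl hn, h⟩
      · right
        exact ⟨hn, h⟩
  refine ⟨key, ?_⟩
  by_contra hinf
  obtain ⟨A, hA⟩ := exists_small _ hinf
  apply A.2.1
  refine (ho A (key A)).subset ?_
  intro n hn
  exact ⟨hn, hA hn⟩

theorem dich_of_isOpen_tau (W : Set YY) (hW : @IsOpen YY (tauYZ YY Bool) W) : Dich W := by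
  induction hW with
  | basic s hs =>
    obtain ⟨V, ⟨f, U, rfl⟩, rfl⟩ := hs
    apply dich_of_isClopen
    have : IsClopen (U : Set Bool) := isClopen_discrete _
    exact this.preimage f.continuous
  | univ =>
    refine ⟨fun n _ => subset_univ _, fun _ => ⟨fun A => mem_univ _, ?_⟩⟩
    simp
  | inter s t _ _ hs ht =>
    refine ⟨?_, ?_⟩
    · rintro n ⟨y, hy, hyW⟩
      exact subset_inter (hs.1 n ⟨y, hy, hyW.1⟩) (ht.1 n ⟨y, hy, hyW.2⟩)
    · rintro ⟨A, hA⟩
      obtain ⟨h1, h2⟩ := hs.2 ⟨A, hA.1⟩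
      obtain ⟨h3, h4⟩ := ht.2 ⟨A, hA.2⟩
      refine ⟨fun B => ⟨h1 B, h3 B⟩, (h2.union h4).subset ?_⟩
      intro n hn
      by_cases h : Q n ⊆ s
      · right
        exact fun h' => hn (subset_inter h h')
      · left
        exact h
  | sUnion S _ hS =>
    refine ⟨?_, ?_⟩
    · rintro n ⟨y, hy, s, hs, hys⟩
      exact ((hS s hs).1 n ⟨y, hy, hys⟩).trans (subset_sUnion_of_mem hs)
    · rintro ⟨A, s, hs, hA⟩
      obtain ⟨h1, h2⟩ := (hS s hs).2 ⟨A, hA⟩
      refine ⟨fun B => ⟨s, hs, h1 B⟩, h2.subset ?_⟩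
      intro n hn h
      exact hn (h.trans (subset_sUnion_of_mem hs))

theorem isCompact_univ_tau : @IsCompact YY (tauYZ YY Bool) univ := by
  let _ : TopologicalSpace YY := tauYZ YY Bool
  rw [isCompact_iff_finite_subcover]
  intro ι U hUo hU
  obtain ⟨A₀, -⟩ := exists_small univ infinite_univ
  obtain ⟨i₀, hi₀⟩ := mem_iUnion.1 (hU (mem_univ (lim A₀)))
  obtain ⟨h1, h2⟩ := (dich_of_isOpen_tau (U i₀) (hUo i₀)).2 ⟨A₀, hi₀⟩
  have hch : ∀ n : ℕ, ∃ i, Q n ⊆ U i := by
    intro n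
    obtain ⟨y, hy⟩ := nonempty_Q n
    obtain ⟨i, hi⟩ := mem_iUnion.1 (hU (mem_univ y))
    exact ⟨i, (dich_of_isOpen_tau (U i) (hUo i)).1 n ⟨y, hy, hi⟩⟩
  choose g hg using hch
  classical
  refine ⟨insert i₀ (h2.toFinset.image g), ?_⟩
  rintro y -
  rw [mem_iUnion₂]
  rcases cases_pt y with ⟨A, rfl⟩ | ⟨n, hn⟩
  · exact ⟨i₀, Finset.mem_insert_self _ _, h1 A⟩
  · by_cases hn' : Q n ⊆ U i₀
    · exact ⟨i₀, Finset.mem_insert_self _ _, hn' hn⟩
    · refine ⟨g n, Finset.mem_insert_of_mem (Finset.mem_image_of_mem g ?_), hg n hn⟩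
      simpa using hn'

/-- The constant map with value `true`. -/
noncomputable def ctrue : C(YY, Bool) := ContinuousMap.const YY true

/-- The open set `{true}`. -/
def uTrue : Opens Bool := ⟨{true}, isOpen_discrete _⟩

theorem comap_ctrue (U : Opens Bool) (hU : true ∈ U) : Opens.comap ctrue U = ⊤ := by
  ext y
  simp only [Opens.coe_comap, mem_preimage, Opens.coe_top, mem_univ, iff_true]
  exact hU

theorem comap_ctrue' (U : Opens Bool) (hU : true ∉ U) : Opens.comap ctrue U = ⊥ := by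
  ext y
  simp only [Opens.coe_comap, mem_preimage, Opens.coe_bot, mem_empty_iff_false, iff_false]
  exact hU

theorem comap_uTrue_eq_top {f : C(YY, Bool)} (h : Opens.comap f uTrue = ⊤) : f = ctrue := by
  ext1 y
  have : y ∈ Opens.comap f uTrue := by rw [h]; trivial
  exact this

/-- The `n`-th star as an open set. -/
noncomputable def Qo (n : ℕ) : Opens YY := ⟨Q n, (isClopen_Q n).2⟩

/-- The map which is `false` on the `n`-th star and `true` elsewhere. -/
theorem exists_map (n : ℕ) : ∃ f : C(YY, Bool), ∀ y, f y = true ↔ y ∉ Q n := by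
  classical
  have hcl : IsClopen ((Q n)ᶜ : Set YY) := (isClopen_Q n).compl
  refine ⟨⟨fun y => decide (y ∈ (Q n)ᶜ), ?_⟩, ?_⟩
  · exact (IsLocallyConstant.iff_continuous _).1 (by
      rw [IsLocallyConstant.iff_isOpen_fiber]
      intro b
      cases b
      · have : (fun y : YY => decide (y ∈ (Q n)ᶜ)) ⁻¹' {false} = Q n := by
          ext y; simp
        rw [this]
        exact (Qo n).2
      · have : (fun y : YY => decide (y ∈ (Q n)ᶜ)) ⁻¹' {true} = (Q n)ᶜ := by
          ext y; simp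
        rw [this]
        exact hcl.2)
  · intro y
    simp

/-- A finite union of members of the basic cover misses one of the stars. -/
theorem exists_missing (G : Set (Opens YY)) (hG : G.Finite)
    (hsub : G ⊆ {W | (∃ A : Small, W = basicNhd A) ∨ ∃ n, W = Qo n}) :
    ∃ n : ℕ, ∀ y ∈ Q n, y ∉ sSup G := by
  have key : {n : ℕ | ∃ y ∈ Q n, y ∈ sSup G}ᶜ ∈ (Filter.hyperfilter ℕ : Filter ℕ) := by
    have h1 : {n : ℕ | ∃ y ∈ Q n, y ∈ sSup G}ᶜ = ⋂ W ∈ G, {n : ℕ | ∃ y ∈ Q n, y ∈ W}ᶜ := by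
      ext n
      simp only [mem_compl_iff, mem_ofPred_eq, Opens.mem_sSup, mem_iInter]
      constructor
      · rintro h W hW ⟨y, hy, hyW⟩
        exact h ⟨y, hy, W, hW, hyW⟩
      · rintro h ⟨y, hy, W, hW, hyW⟩
        exact h W hW ⟨y, hy, hyW⟩
    rw [h1, Filter.biInter_mem hG]
    intro W hW
    rcases hsub hW with ⟨A, rfl⟩ | ⟨m, rfl⟩
    · refine Filter.mem_of_superset A.2.2 ?_
      intro n hn hn'
      exact hn (mem_of_mem_basicNhd hn')
    · have hfin : {n : ℕ | ∃ y ∈ Q n, y ∈ Qo m}.Finite := by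
        refine (finite_singleton m).subset ?_
        rintro n ⟨y, hy, hym⟩
        have h2 : y.1.1 = 1 / ((n : ℝ) + 1) := hy
        have h3 : y.1.1 = 1 / ((m : ℝ) + 1) := hym
        exact level_inj (h2.symm.trans h3)
      exact hfin.compl_mem_hyperfilter
  obtain ⟨n, hn⟩ := Filter.nonempty_of_mem key
  exact ⟨n, fun y hy hyG => hn ⟨y, hy, hyG⟩⟩

theorem strong_key (H : Set (Opens YY)) (hH : StrongScottOpen YY H) :
    ∃ f : C(YY, Bool), f ≠ ctrue ∧ Opens.comap f uTrue ∈ H := by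
  obtain ⟨hup, hcov⟩ := hH
  obtain ⟨G, hGF, hGfin, hG⟩ := hcov {W | (∃ A : Small, W = basicNhd A) ∨ ∃ n, W = Qo n} (by
    rw [eq_top_iff]
    rintro y -
    rw [Opens.mem_sSup]
    rcases cases_pt y with ⟨A, rfl⟩ | ⟨n, hn⟩
    · exact ⟨basicNhd A, Or.inl ⟨A, rfl⟩, lim_mem_basicNhd A⟩
    · exact ⟨Qo n, Or.inr ⟨n, rfl⟩, hn⟩)
  obtain ⟨n, hn⟩ := exists_missing G hGfin hGF
  obtain ⟨f, hf⟩ := exists_map n
  refine ⟨f, ?_, hup _ hG _ ?_⟩
  · intro h
    obtain ⟨y, hy⟩ := nonempty_Q n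
    have h1 : f y = true := by rw [h]; rfl
    exact (hf _).1 h1 hy
  · intro y hy
    exact (hf y).2 (fun hyQ => hn y hyQ hy)

theorem nhd_of_open (A : Set C(YY, Bool)) (hA : @IsOpen _ (tsIs YY Bool) A) (h : ctrue ∈ A) :
    ∃ H : Set (Opens YY), StrongScottOpen YY H ∧ ∀ f, Opens.comap f uTrue ∈ H → f ∈ A := by
  induction hA with
  | basic s hs =>
    obtain ⟨H, U, hH, rfl⟩ := hs
    refine ⟨H, hH, ?_⟩
    intro f hf
    by_cases hU : true ∈ U
    · refine hH.1 _ hf _ ?_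
      intro y hy
      have : f y = true := hy
      change f y ∈ U
      rw [this]
      exact hU
    · have h' : Opens.comap ctrue U ∈ H := h
      rw [comap_ctrue' U hU] at h'
      exact hH.1 _ h' _ bot_le
  | univ =>
    refine ⟨univ, ⟨fun _ _ _ _ => mem_univ _, fun F _ => ⟨∅, empty_subset _, finite_empty,
      mem_univ _⟩⟩, fun f _ => mem_univ _⟩
  | inter s t _ _ hs ht =>
    obtain ⟨H1, h1, h1'⟩ := hs h.1
    obtain ⟨H2, h2, h2'⟩ := ht h.2
    refine ⟨H1 ∩ H2, ⟨fun W hW V hV => ⟨h1.1 W hW.1 V hV, h2.1 W hW.2 V hV⟩, ?_⟩,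
      fun f hf => ⟨h1' f hf.1, h2' f hf.2⟩⟩
    intro F hF
    obtain ⟨G1, hG1, hf1, hm1⟩ := h1.2 F hF
    obtain ⟨G2, hG2, hf2, hm2⟩ := h2.2 F hF
    refine ⟨G1 ∪ G2, union_subset hG1 hG2, hf1.union hf2, ?_, ?_⟩
    · exact h1.1 _ hm1 _ (sSup_le_sSup subset_union_left)
    · exact h2.1 _ hm2 _ (sSup_le_sSup subset_union_right)
  | sUnion S _ hS =>
    obtain ⟨s, hs, hsm⟩ := h
    obtain ⟨H, hH, hH'⟩ := hS s hs hsm
    exact ⟨H, hH, fun f hf => ⟨s, hs, hH' f hf⟩⟩

theorem not_open_sIs : ¬ @IsOpen _ (tsIs YY Bool) ({ctrue} : Set C(YY, Bool)) := by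
  intro h
  obtain ⟨H, hH, hH'⟩ := nhd_of_open _ h rfl
  obtain ⟨f, hf, hfH⟩ := strong_key H hH
  exact hf (hH' f hfH)

theorem sIs_le_Is (Y Z : Type) [TopologicalSpace Y] [TopologicalSpace Z] :
    tsIs Y Z ≤ tIs Y Z := by
  apply le_generateFrom
  rintro A ⟨H, U, hH, rfl⟩
  by_cases htop : (⊤ : Opens Y) ∈ H
  · apply isOpen_generateFrom_of_mem
    exact ⟨H, U, ⟨hH.1, fun F hF => hH.2 F (by rw [hF]; exact htop)⟩, rfl⟩
  · have : {f : C(Y, Z) | Opens.comap f U ∈ H} = ∅ := by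
      rw [eq_empty_iff_forall_notMem]
      intro f hf
      exact htop (hH.1 _ hf _ le_top)
    rw [this]
    exact @isOpen_empty _ (tsIs Y Z)

theorem Is_le_co (Y Z : Type) [TopologicalSpace Y] [TopologicalSpace Z] :
    tIs Y Z ≤ tco Y Z := by
  apply le_generateFrom
  rintro A ⟨K, U, hK, rfl⟩
  apply isOpen_generateFrom_of_mem
  refine ⟨{W : Opens Y | K ⊆ (W : Set Y)}, U, ⟨?_, ?_⟩, ?_⟩
  · intro W hW V hV
    exact (show K ⊆ (W : Set Y) from hW).trans hV
  · intro F hF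
    have hF' : K ⊆ ⋃₀ ((fun W : Opens Y => (W : Set Y)) '' F) := by
      intro x hx
      have := hF hx
      rw [SetLike.mem_coe, Opens.mem_sSup] at this
      obtain ⟨W, hW, hxW⟩ := this
      exact ⟨W, ⟨W, hW, rfl⟩, hxW⟩
    obtain ⟨T, hTF, hTfin, hKT⟩ := hK.elim_finite_subcover_image (b := F)
      (c := fun W : Opens Y => (W : Set Y)) (fun W _ => W.2) (by
        intro x hx
        obtain ⟨_, ⟨W, hW, rfl⟩, hxW⟩ := hF' hx
        exact mem_biUnion hW hxW)
    refine ⟨T, hTF, hTfin, ?_⟩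
    intro x hx
    obtain ⟨W, hW, hxW⟩ := mem_iUnion₂.1 (hKT hx)
    rw [SetLike.mem_coe, Opens.mem_sSup]
    exact ⟨W, hW, hxW⟩
  · ext f
    simp only [image_subset_iff]
    rfl

theorem isOpen_coZ : @IsOpen _ (tcoZ YY Bool) ({ctrue} : Set C(YY, Bool)) := by
  apply isOpen_generateFrom_of_mem
  refine ⟨univ, uTrue, isCompact_univ_tau, ?_⟩
  ext f
  constructor
  · rintro rfl
    rintro _ ⟨y, -, rfl⟩
    rfl
  · intro h
    apply comap_uTrue_eq_top
    rw [eq_top_iff]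
    intro y _
    exact h ⟨y, mem_univ _, rfl⟩

theorem finite_subcover (F : Set (Opens YY)) (hF : F ⊆ OZ YY Bool) (hFt : sSup F = ⊤) :
    ∃ G ⊆ F, G.Finite ∧ sSup G = ⊤ := by
  obtain ⟨T, hTF, hTfin, hT⟩ := @IsCompact.elim_finite_subcover_image YY (Opens YY)
    (tauYZ YY Bool) univ F (fun W : Opens YY => (W : Set YY)) isCompact_univ_tau
    (fun W hW => isOpen_generateFrom_of_mem ⟨W, hF hW, rfl⟩) (by
      intro x _
      have hx : x ∈ sSup F := by rw [hFt]; trivial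
      rw [Opens.mem_sSup] at hx
      obtain ⟨W, hW, hxW⟩ := hx
      exact mem_biUnion hW hxW)
  refine ⟨T, hTF, hTfin, ?_⟩
  rw [eq_top_iff]
  intro x _
  obtain ⟨W, hW, hxW⟩ := mem_iUnion₂.1 (hT (mem_univ x))
  rw [Opens.mem_sSup]
  exact ⟨W, hW, hxW⟩

theorem singleton_eq : ({ctrue} : Set C(YY, Bool)) =
    {f : C(YY, Bool) | Opens.comap f uTrue ∈ ({⊤} : Set (Opens YY))} := by
  ext f
  constructor
  · rintro rfl
    exact comap_ctrue uTrue rfl
  · intro h
    exact comap_uTrue_eq_top h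

theorem isOpen_1Z : @IsOpen _ (t1Z YY Bool) ({ctrue} : Set C(YY, Bool)) := by
  apply isOpen_generateFrom_of_mem
  refine ⟨{⊤}, uTrue, ⟨?_, ?_⟩, singleton_eq⟩
  · rintro W rfl - V hV
    exact top_le_iff.1 hV
  · intro F hF hFt
    exact finite_subcover F hF hFt

theorem isOpen_1sZ : @IsOpen _ (t1sZ YY Bool) ({ctrue} : Set C(YY, Bool)) := by
  apply isOpen_generateFrom_of_mem
  refine ⟨{⊤}, uTrue, ⟨?_, ?_⟩, singleton_eq⟩
  · rintro W rfl - V hV
    exact top_le_iff.1 hV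
  · intro F hF hFt
    exact finite_subcover F hF hFt

/-- There are a metrizable space `Y` and a finite discrete space `Z` such that, on `C(Y, Z)`,
each of the three `Z`-versions differs from the corresponding classical topology. -/
theorem result : ∃ (Y Z : Type) (_ : TopologicalSpace Y) (_ : TopologicalSpace Z),
    MetrizableSpace Y ∧ Finite Z ∧ DiscreteTopology Z ∧
    tcoZ Y Z ≠ tco Y Z ∧ t1Z Y Z ≠ tIs Y Z ∧ t1sZ Y Z ≠ tsIs Y Z := by
  refine ⟨YY, Bool, inferInstance, inferInstance, inferInstance, inferInstance, inferInstance,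
    ?_, ?_, ?_⟩
  · intro h
    have h1 := isOpen_coZ
    rw [h] at h1
    exact not_open_sIs (((sIs_le_Is YY Bool).trans (Is_le_co YY Bool)) _ h1)
  · intro h
    have h1 := isOpen_1Z
    rw [h] at h1
    exact not_open_sIs (sIs_le_Is YY Bool _ h1)
  · intro h
    have h1 := isOpen_1sZ
    rw [h] at h1
    exact not_open_sIs h1

end Pool.Agent.Results.MP_43be50_gt.ZVersions
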